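import Pool.Agent.H59K.B2

set_option autoImplicit false

namespace Pool.Agent.Results.MP_8c9d5b_co.AlmostAllConnected

open Filter Pool.Agent.H59K

/-- the labelled matroids with `n` elements: the matroids on `Fin n` -/
abbrev Labelled (n : ℕ) : Type := {M : Matroid (Fin n) // M.E = Set.univ}

/-- isomorphism of matroids on `Fin n`: some permutation maps bases exactly onto bases -/
abbrev Iso (n : ℕ) : Labelled n → Labelled n → Prop := fun M N =>
  ∃ σ : Equiv.Perm (Fin n), ∀ B : Set (Fin n), M.1.IsBase B ↔ N.1.IsBase (σ '' B)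

/-- the unlabelled matroids with `n` elements: the isomorphism classes -/
abbrev Unlabelled (n : ℕ) : Type := Quot (Iso n)

/-- the proportion of the `k`-connected ones among the labelled matroids with `n` elements -/
noncomputable def labelledRatio (k n : ℕ) : ℝ :=
  (Nat.card {M : Labelled n // KConn k M.1} : ℝ) / (Nat.card (Labelled n) : ℝ)

/-- the proportion of the `k`-connected ones among the unlabelled matroids with `n` elements (a class
is counted if all its members are `k`-connected) -/
noncomputable def unlabelledRatio (k n : ℕ) : ℝ :=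
  (Nat.card {q : Unlabelled n // ∀ M : Labelled n, q = Quot.mk (Iso n) M → KConn k M.1} : ℝ) /
    (Nat.card (Unlabelled n) : ℝ)

/-- For every fixed `k`, asymptotically almost every matroid is `k`-connected (Tutte connectivity),
both for labelled and for unlabelled matroids. Moreover, for all large `n` and all `k` with
`2 ^ (32 k) ≤ n` (that is, `k ≤ (log₂ n) / 32`), all but a proportion `(n + 1) / 2 ^ (n ^ 2)` of the
labelled and all but a proportion `1 / 2 ^ n` of the unlabelled `n`-element matroids are
`k`-connected. -/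
theorem result :
    (∀ k : ℕ, Tendsto (labelledRatio k) atTop (nhds 1) ∧ Tendsto (unlabelledRatio k) atTop (nhds 1)) ∧
    (∀ᶠ n : ℕ in atTop, ∀ k : ℕ, 2 ^ (32 * k) ≤ n →
      1 - ((n : ℝ) + 1) / 2 ^ (n ^ 2) ≤ labelledRatio k n ∧ 1 - 1 / (2 : ℝ) ^ n ≤ unlabelledRatio k n) := by
  have h2 : ∀ᶠ n : ℕ in atTop, ∀ k : ℕ, 2 ^ (32 * k) ≤ n →
      1 - ((n : ℝ) + 1) / 2 ^ (n ^ 2) ≤ labelledRatio k n ∧
        1 - 1 / (2 : ℝ) ^ n ≤ unlabelledRatio k n := by
    filter_upwards [labelled, unlabelled] with n h1 h2 k hk
    refine ⟨?_, h2 k hk⟩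
    have h3 := h1 k hk
    have e1 : Nat.card {M : Matroid (Fin n) // M.E = Set.univ ∧ KConn k M} =
        Nat.card {M : Labelled n // KConn k M.1} :=
      Nat.card_congr (Equiv.subtypeSubtypeEquivSubtypeInter
        (fun M : Matroid (Fin n) => M.E = Set.univ) (fun M => KConn k M)).symm
    rw [e1] at h3
    exact h3
  refine ⟨fun k => ⟨?_, ?_⟩, h2⟩
  · refine tendsto_of_tendsto_of_tendsto_of_le_of_le' Pool.Agent.Helper6H.rate_tendsto
      tendsto_const_nhds ?_ (Eventually.of_forall fun n => ?_)
    · filter_upwards [h2, eventually_ge_atTop (2 ^ (32 * k))] with n hn hk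
      exact (hn k hk).1
    · haveI := Pool.Agent.Helper46.A.F.finX_22726 n
      exact ratio_le_one (α := Labelled n) (fun M => KConn k M.1)
  · refine tendsto_of_tendsto_of_tendsto_of_le_of_le' rate_tendsto2
      tendsto_const_nhds ?_ (Eventually.of_forall fun n => ?_)
    · filter_upwards [h2, eventually_ge_atTop (2 ^ (32 * k))] with n hn hk
      exact (hn k hk).2
    · haveI := Pool.Agent.Helper46.A.F.finX_22726 n
      haveI : Finite (Unlabelled n) := Quot.finite _
      exact ratio_le_one (α := Unlabelled n)
        (fun q => ∀ M : Labelled n, q = Quot.mk (Iso n) M → KConn k M.1)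

end Pool.Agent.Results.MP_8c9d5b_co.AlmostAllConnected
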